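import Mathlib
import Pool.Agent.X223.LDim.Main

set_option autoImplicit false

namespace Pool.Agent.Results.MP_666a49_co.BooleanLattice

open Pool.Agent.X223.LDim

/-- The local dimension of the Boolean lattice `2^n` (subsets of an `n`-element set, ordered by
inclusion) is at most `n - ⌊n/4⌋`; so it is smaller than `n` for every `n ≥ 4`, and the equality
`ldim(2^n) = n` for all `n ≥ 1` fails. Also, local dimension is subadditive under products. -/
theorem result :
    (∀ n : ℕ, ldim (Finset (Fin n)) ≤ n - n / 4) ∧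
    (∀ n : ℕ, 4 ≤ n → ldim (Finset (Fin n)) < n) ∧
    (¬ ∀ n : ℕ, 1 ≤ n → ldim (Finset (Fin n)) = n) ∧
    (∀ (α β : Type) [PartialOrder α] [PartialOrder β] (d e : ℕ),
      HasLR α d → HasLR β e → HasLR (α × β) (d + e)) := by
  have h2 : ∀ n : ℕ, 4 ≤ n → ldim (Finset (Fin n)) < n := by
    intro n hn
    refine lt_of_le_of_lt (ldim_le n) ?_
    omega
  refine ⟨ldim_le, h2, ?_, ?_⟩
  · intro h
    exact absurd (h 4 (by norm_num)) (h2 4 le_rfl).ne
  · intro α β _ _ d e h h'
    exact h.prod h'

end Pool.Agent.Results.MP_666a49_co.BooleanLattice
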